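import Pool.Agent.H620R2.Gauge.Defs

/-!
# Counting relative to an oracle

(Continues `Pool.Agent.H620R2.Gauge.Defs`.)
-/

set_option autoImplicit false

namespace Pool.Agent.H274R3.Sharp

open Pool.Agent.NPC Pool.Agent.H620R2.Gauge

/-- The function `g` is in `#P` relative to `A`: it counts the certificates `w` of length `p |x|`
accepted by a verifier `V` in `FP^A`. -/
def IsSharpP (A : Oracle) (g : List Bool → ℕ) : Prop :=
  ∃ (V : List Bool → List Bool) (p : Polynomial ℕ), IsFP A V ∧
    ∀ x, g x = Nat.card {w : Fin (p.eval x.length) → Bool // V (pairBits (List.ofFn w) x) = [true]}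

/-- The function `g` with values in the natural numbers is computable in polynomial time relative to
`A` (the output is written in binary, the lowest digit first). -/
def IsFPNum (A : Oracle) (g : List Bool → ℕ) : Prop :=
  ∃ F : List Bool → List Bool, IsFP A F ∧ ∀ x, F x = (g x).bits

/-- `#P` is contained in `FP` relative to `A` -/
def CountingEasy (A : Oracle) : Prop := ∀ g : List Bool → ℕ, IsSharpP A g → IsFPNum A g

/-- Relative to `A`, the parity of every function in `#P` is in the polynomial hierarchy with
polynomial advice. -/
def ParityInPHpoly (A : Oracle) : Prop :=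
  ∀ g : List Bool → ℕ, IsSharpP A g → IsPHpoly A {x | Odd (g x)}

end Pool.Agent.H274R3.Sharp
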