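import Pool.Agent.H274R3.Sharp.Par
import Pool.Agent.H620R2.Gauge.NonNull

/-!
# Many oracles relative to which counting is easy; the threshold
-/

set_option autoImplicit false

namespace Pool.Agent.H274R3.Sharp

open Pool.Agent.NPC Pool.Agent.H620R2.Gauge Pool.Agent.H622R2 Filter

theorem exists_pair_enum : ∃ g : ℕ → Alg × Polynomial ℕ, Function.Surjective g := by
  have h1 := CC.poly_countable
  have hne : Nonempty Alg := by
    obtain ⟨M, _⟩ := IsFP.of_poly (A := fun _ => false) (F := fun x => x) Poly.id
    exact ⟨M⟩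
  exact exists_surjective_nat _

/-- the number of the accepted certificates -/
noncomputable def cnt (z : Alg × Polynomial ℕ) (A : Oracle) (x : List Bool) : ℕ :=
  Nat.card {w : Fin (z.2.eval x.length) → Bool // z.1.out A (pairBits (List.ofFn w) x) = some [true]}

theorem cnt_lt (z : Alg × Polynomial ℕ) (A : Oracle) (x : List Bool) :
    cnt z A x < 2 ^ (z.2.eval x.length + 1) := by
  have h1 : cnt z A x ≤ 2 ^ z.2.eval x.length := by
    unfold cnt
    refine (Nat.card_le_card_of_injective _ Subtype.val_injective).trans (le_of_eq ?_)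
    simp
  refine lt_of_le_of_lt h1 (Nat.pow_lt_pow_right (by norm_num) (Nat.lt_succ_self _))

/-- the questions for all digits -/
def digQ (R : ℕ → Polynomial ℕ) (e : ℕ) (p : Polynomial ℕ) (x : List Bool) : List (List Bool) :=
  (List.range (p.eval x.length + 1)).map fun i =>
    code R e (pairBits (((List.range (p.eval x.length + 1)).filter
      (fun k => decide (k < i))).map (fun _ => true)) x)

theorem filter_lt (m : ℕ) : ∀ i ≤ m, ((List.range m).filter (fun k => decide (k < i))).length = i := by
  intro i hi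
  obtain ⟨d, rfl⟩ := Nat.exists_eq_add_of_le hi
  rw [List.range_add, List.filter_append, List.length_append]
  have h1 : (List.range i).filter (fun k => decide (k < i)) = List.range i := by
    rw [List.filter_eq_self]
    intro k hk
    simpa using hk
  have h2 : ((List.range d).map (i + ·)).filter (fun k => decide (k < i)) = [] := by
    rw [List.filter_eq_nil_iff]
    intro k hk
    rw [List.mem_map] at hk
    obtain ⟨j, _, rfl⟩ := hk
    simp
  rw [h1, h2]
  simp

theorem digQ_eq (R : ℕ → Polynomial ℕ) (e : ℕ) (p : Polynomial ℕ) (x : List Bool) :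
    digQ R e p x = (List.range (p.eval x.length + 1)).map fun i =>
      code R e (pairBits (List.replicate i true) x) := by
  unfold digQ
  apply List.map_congr_left
  intro i hi
  rw [List.map_const', filter_lt _ _ (List.mem_range.1 hi).le]

theorem poly_repl {m : List Bool → ℕ} (hm : UPoly m) :
    Poly (fun a : List Bool × ℕ => ((List.range (m a.1)).filter
      (fun k => decide (k < a.2))).map (fun _ => true)) := by
  refine NPC.Poly.map (F := fun _ _ => true) ?_ (NPC.Poly.const true)
  exact Poly.filter (p := fun (a : List Bool × ℕ) k => decide (k < a.2))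
    (hm.range.comp (Poly.fst Poly.id))
    (Poly.decide_lt (Poly.snd Poly.id) (Poly.snd (Poly.fst Poly.id)))

theorem poly_dig {m : List Bool → ℕ} (hm : UPoly m) (R : ℕ → Polynomial ℕ) (e : ℕ) :
    Poly (fun x => (List.range (m x)).map fun i =>
      code R e (pairBits (((List.range (m x)).filter (fun k => decide (k < i))).map
        (fun _ => true)) x)) := by
  have h := (CC.poly_code R e).comp (poly_pairBits (poly_repl hm) (Poly.fst Poly.id))
  exact NPC.Poly.map (F := fun x i => code R e (pairBits (((List.range (m x)).filter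
      (fun k => decide (k < i))).map (fun _ => true)) x)) hm.range h

theorem poly_digQ (R : ℕ → Polynomial ℕ) (e : ℕ) (p : Polynomial ℕ) : Poly (digQ R e p) :=
  poly_dig (m := fun x => p.eval x.length + 1)
    (UPoly.add ((UPoly.length Poly.id).eval p) (UPoly.const 1)) R e

theorem not_null_sharp {f : ℕ → ℝ} {ε : ℝ} (hε : 0 < ε)
    (hf : ∀ᶠ N : ℕ in atTop, 2 ^ (Real.logb 2 N) ^ ε < f N)
    (O : Set Oracle) (hO : ∀ A : Oracle, CountingEasy A → A ∈ O) : ¬ Null f O := by
  classical
  obtain ⟨K, hK⟩ := exists_nat_gt (1 / ε)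
  have hK' : 1 < ε * K := by
    rw [div_lt_iff₀ hε] at hK
    linarith
  obtain ⟨al, hal⟩ := exists_pair_enum
  choose qb hqb using fun e : ℕ => (al e).1.out_local
  set R : ℕ → Polynomial ℕ := fun e => (qb e).comp (2 * (al e).2 + 1 + Polynomial.X) +
    (Polynomial.X + Polynomial.C (e + 1)) ^ K with hR
  have hRe : ∀ e n, (R e).eval n = (qb e).eval (2 * (al e).2.eval n + 1 + n) +
      (n + (e + 1)) ^ K := by
    intro e n
    simp [hR]
  have hRK : ∀ e n, (n + e + 1) ^ K ≤ (R e).eval n := by
    intro e n
    rw [hRe, add_assoc n e 1]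
    exact Nat.le_add_left _ _
  obtain ⟨N₀, hN₀⟩ := eventually_atTop.1 (hf.and (sparse R hRK hε hK'))
  set V : ℕ → Oracle → List Bool → Prop := fun e A x =>
    (cnt (al e) A (unpair x).2).testBit (unpair x).1.length = true with hV
  have hloc : ∀ e A A' x, (∀ z : List Bool, z.length < (code R e x).length → A z = A' z) →
      (V e A x ↔ V e A' x) := by
    intro e A A' x h
    have key : cnt (al e) A (unpair x).2 = cnt (al e) A' (unpair x).2 := by
      unfold cnt
      refine Nat.card_congr (Equiv.subtypeEquivRight fun w => ?_)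
      obtain ⟨Q, _, hQ1, hQ2⟩ := hqb e A' (pairBits (List.ofFn w) (unpair x).2)
      rw [hQ2 A fun q hq => ?_]
      apply h
      refine lt_of_le_of_lt ((hQ1 q hq).trans ?_) (CC.lt_length_code R e x)
      rw [hRe]
      refine le_trans ?_ (Nat.le_add_right _ _)
      apply eval_mono
      have h1 := V8.unpair_snd_len x
      have h2 := eval_mono (al e).2 h1
      rw [length_pairBits, List.length_ofFn]
      omega
    simp only [hV]
    rw [key]
  refine OW.not_null_of_coding f (CC.Phi R V) {y | ∃ e x, y = code R e x} ?_ N₀ ?_ O ?_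
  · intro B y hy
    exact CC.Phi_not R V B y fun e x h => hy ⟨e, x, h⟩
  · intro N hN
    refine le_trans ?_ (hN₀ N hN).1.le
    exact (hN₀ N hN).2
  · intro B
    apply hO
    rintro g ⟨F, p, ⟨Mf, hMf⟩, hg⟩
    obtain ⟨e, he⟩ := hal (Mf, p)
    have hgc : ∀ x, g x = cnt (al e) (CC.Phi R V B) x := by
      intro x
      rw [hg, he]
      unfold cnt
      refine Nat.card_congr (Equiv.subtypeEquivRight fun w => ?_)
      rw [hMf, Option.some.injEq]
    have hH : Poly (fun z : List Bool × List Bool => (valB z.2).bits) :=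
      Poly.natBits (Poly.valBits (Poly.snd Poly.id))
    refine ⟨_, IsFP.tt (A := CC.Phi R V B) (poly_digQ R e p) hH, fun x => ?_⟩
    show (valB ((digQ R e p x).map (CC.Phi R V B))).bits = (g x).bits
    congr 1
    rw [digQ_eq, List.map_map]
    have h1 : ((CC.Phi R V B) ∘ fun i => code R e (pairBits (List.replicate i true) x)) =
        fun i => (g x).testBit i := by
      funext i
      have h2 := CC.Phi_code R V B hloc e (pairBits (List.replicate i true) x)
      simp only [hV, unpair_pairBits, List.length_replicate] at h2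
      rw [← hgc] at h2
      exact Bool.eq_iff_iff.2 h2
    rw [h1, valB_testBit, Nat.mod_eq_of_lt]
    rw [hgc]
    have h3 := cnt_lt (al e) (CC.Phi R V B) x
    rw [he] at h3 ⊢
    exact h3

theorem main (f : ℕ → ℝ) :
    (Null f {A : Oracle | CountingEasy A} ↔
      ∀ ε : ℝ, 0 < ε → ∃ᶠ N : ℕ in atTop, f N ≤ 2 ^ (Real.logb 2 N) ^ ε) ∧
    (Null f {A : Oracle | ParityInPHpoly A} ↔
      ∀ ε : ℝ, 0 < ε → ∃ᶠ N : ℕ in atTop, f N ≤ 2 ^ (Real.logb 2 N) ^ ε) ∧
    (∀ O : Set Oracle, {A : Oracle | CountingEasy A} ⊆ O → O ⊆ {A : Oracle | ParityInPHpoly A} →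
      (Null f O ↔
        ∀ ε : ℝ, 0 < ε → ∃ᶠ N : ℕ in atTop, f N ≤ 2 ^ (Real.logb 2 N) ^ ε)) ∧
    {A : Oracle | CountingEasy A} ⊆ {A : Oracle | ParityInPHpoly A} := by
  have key : ∀ O : Set Oracle, {A : Oracle | CountingEasy A} ⊆ O →
      O ⊆ {A : Oracle | ParityInPHpoly A} →
      (Null f O ↔
        ∀ ε : ℝ, 0 < ε → ∃ᶠ N : ℕ in atTop, f N ≤ 2 ^ (Real.logb 2 N) ^ ε) := by
    intro O h1 h2
    constructor
    · intro hn
      by_contra hcon
      push Not at hcon
      obtain ⟨ε, hε, hcon⟩ := hcon
      exact not_null_sharp hε hcon O (fun A hA => h1 hA) hn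
    · intro hf
      refine null_of_frequently f hf O fun A hA => ?_
      rw [← odd_cntO]
      exact h2 hA _ (isSharpP_cntO A)
  have hsub : {A : Oracle | CountingEasy A} ⊆ {A : Oracle | ParityInPHpoly A} :=
    fun A hA => CountingEasy.parity hA
  exact ⟨key _ subset_rfl hsub, key _ hsub subset_rfl, key, hsub⟩

end Pool.Agent.H274R3.Sharp
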