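import Pool.Agent.H274R3.Sharp.Defs
import Pool.Agent.H620R2.Gauge.Cover
import Pool.Agent.H620R2.Gauge2.Trans
import Pool.Agent.H620R2.Gauge2.CoverN
import Pool.Agent.H274R3.OW.AE

/-!
# The parity of a counting function; binary digits
-/

set_option autoImplicit false

namespace Pool.Agent.H274R3.Sharp

open Pool.Agent.NPC Pool.Agent.H620R2.Gauge Pool.Agent.H622R2

/-- the number of the strings `x w` in the oracle with `|w| = |x|` -/
noncomputable def cntO (A : Oracle) (x : List Bool) : ℕ :=
  Nat.card {w : Fin x.length → Bool // A (x ++ List.ofFn w) = true}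

theorem isSharpP_cntO (A : Oracle) : IsSharpP A (cntO A) := by
  have hQ : Poly (fun v : List Bool => [(unpair v).2 ++ (unpair v).1]) :=
    Poly.cons (Poly.append (Poly.snd poly_unpair) (Poly.fst poly_unpair)) (NPC.Poly.const [])
  have h := IsFP.tt (A := A) (Q := fun v : List Bool => [(unpair v).2 ++ (unpair v).1])
    (H := fun p => p.2) hQ (Poly.snd Poly.id)
  refine ⟨_, Polynomial.X, h, fun x => ?_⟩
  unfold cntO
  rw [Polynomial.eval_X]
  refine Nat.card_congr (Equiv.subtypeEquivRight fun w => ?_)
  simp only [List.map_cons, List.map_nil, unpair_pairBits, List.cons.injEq, and_true]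

theorem cntO_eq (A : Oracle) (x : List Bool) : cntO A x =
    ((Finset.range (2 ^ x.length)).filter
      (fun j => A (x ++ bitsOf x.length j) = true)).card := by
  classical
  unfold cntO
  rw [Nat.card_eq_fintype_card, Fintype.card_subtype]
  symm
  have hw : ∀ j : ℕ, List.ofFn (fun i : Fin x.length =>
      (bitsOf x.length j).get (Fin.cast (length_bitsOf _ _).symm i)) = bitsOf x.length j := by
    intro j
    apply List.ext_get
    · simp [length_bitsOf]
    · intro n h1 h2
      simp only [List.get_eq_getElem, List.getElem_ofFn, Fin.val_cast]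
  refine Finset.card_bij (fun j _ => fun i : Fin x.length =>
      (bitsOf x.length j).get (Fin.cast (length_bitsOf _ _).symm i)) ?_ ?_ ?_
  · intro j hj
    rw [Finset.mem_filter] at hj ⊢
    refine ⟨Finset.mem_univ _, ?_⟩
    rw [hw]
    exact hj.2
  · intro j hj j' hj' h
    rw [Finset.mem_filter, Finset.mem_range] at hj hj'
    have h1 := congrArg List.ofFn h
    rw [hw, hw] at h1
    exact Pool.Agent.H620R2.Gauge.bitsOf_inj hj.1 hj'.1 h1
  · intro w hw'
    rw [Finset.mem_filter] at hw'
    obtain ⟨s, hs, he⟩ := exists_bitsOf (List.ofFn w)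
    rw [List.length_ofFn] at hs he
    refine ⟨s, ?_, ?_⟩
    · rw [Finset.mem_filter, Finset.mem_range, he]
      exact ⟨hs, hw'.2⟩
    · apply List.ofFn_injective
      rw [hw, he]

theorem odd_cntO (A : Oracle) : {x | Odd (cntO A x)} = parLang A := by
  ext x
  unfold parLang
  rw [Set.mem_ofPred_eq, Set.mem_ofPred_eq, cntO_eq]

theorem head_bits (n : ℕ) : n.bits.head? = some true ↔ Odd n := by
  have h := valB_bits n
  rcases hb : n.bits with _ | ⟨b, l⟩
  · rw [hb] at h
    simp at h
    rw [← h]
    simp
  · rw [hb, valB_cons] at h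
    rw [← h]
    cases b with
    | true =>
      simp only [List.head?_cons, if_true, true_iff]
      exact ⟨valB l, by ring⟩
    | false =>
      simp only [List.head?_cons, Bool.false_eq_true, if_false, zero_add, Option.some.injEq,
        false_iff, Nat.not_odd_iff_even]
      exact ⟨valB l, by ring⟩

open Classical in
theorem IsFPNum.parity {A : Oracle} {g : List Bool → ℕ} (hg : IsFPNum A g) :
    IsP A {x | Odd (g x)} := by
  obtain ⟨F, hF, hFg⟩ := hg
  have ht : Poly (fun z : List Bool => if z.head? = some true then [true] else [false]) :=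
    Poly.ite (Poly.decide_eq (Poly.head? Poly.id) (NPC.Poly.const _)) (NPC.Poly.const _)
      (NPC.Poly.const _)
  refine ⟨_, (IsFP.of_poly ht).comp hF, fun x => ?_⟩
  show Odd (g x) ↔ (if (F x).head? = some true then [true] else [false]) = [true]
  rw [hFg, ← head_bits]
  split_ifs with h
  · exact ⟨fun _ => rfl, fun _ => h⟩
  · exact ⟨fun h1 => absurd h1 h, fun h1 => by simp at h1⟩

theorem CountingEasy.parity {A : Oracle} (hA : CountingEasy A) : ParityInPHpoly A :=
  fun g hg => (hA g hg).parity.isPHpoly

theorem valB_testBit (m : ℕ) : ∀ g : ℕ,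
    valB ((List.range m).map fun i => g.testBit i) = g % 2 ^ m := by
  induction m with
  | zero => intro g; simp [Nat.mod_one]
  | succ m ih =>
    intro g
    rw [List.range_succ_eq_map, List.map_cons, List.map_map, valB_cons]
    have h1 : ((fun i => g.testBit i) ∘ Nat.succ) = fun i => (g / 2).testBit i := by
      funext i
      show g.testBit (i + 1) = _
      rw [Nat.testBit_succ]
    rw [h1, ih, Nat.testBit_zero, pow_succ]
    have h2 : g % (2 ^ m * 2) = g % 2 + 2 * ((g / 2) % 2 ^ m) := by
      rw [mul_comm, Nat.mod_mul]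
    rw [h2]
    congr 1
    rcases Nat.mod_two_eq_zero_or_one g with h | h <;> simp [h]

end Pool.Agent.H274R3.Sharp
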